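import Pool.Agent.L0h19.QE.Stm

/-!
# Project QE (helper19), module MAJ (helper85)
-/

set_option autoImplicit false
set_option linter.unusedSectionVars false

namespace Pool.Agent.L0h85.QE

open Finset Filter Topology
open Pool.Agent.L0h87.LE (ee odds Inv)
open Pool.Agent.L0h19.QE

lemma ee_add (a b : ℝ) : ee (a + b) = ee a * ee b := by
  unfold ee
  rw [← Complex.exp_add]
  congr 1
  push_cast
  ring

lemma ee_int (n : ℤ) : ee n = 1 := by
  unfold ee
  have : 2 * (Real.pi : ℂ) * Complex.I * ((n : ℝ) : ℂ) = n * (2 * Real.pi * Complex.I) := by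
    push_cast
    ring
  rw [this, Complex.exp_int_mul_two_pi_mul_I]

lemma norm_ee (t : ℝ) : ‖ee t‖ = 1 := by
  unfold ee
  have : 2 * (Real.pi : ℂ) * Complex.I * (t : ℂ) = ((2 * Real.pi * t : ℝ) : ℂ) * Complex.I := by
    push_cast
    ring
  rw [this, Complex.norm_exp_ofReal_mul_I]

lemma norm_ee_sub_one (t : ℝ) : ‖ee t - 1‖ ≤ 2 * Real.pi * |t| := by
  unfold ee
  have : 2 * (Real.pi : ℂ) * Complex.I * (t : ℂ) = Complex.I * ((2 * Real.pi * t : ℝ) : ℂ) := by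
    push_cast
    ring
  rw [this]
  refine (Real.norm_exp_I_mul_ofReal_sub_one_le).trans (le_of_eq ?_)
  rw [Real.norm_eq_abs, abs_mul, abs_of_pos Real.two_pi_pos]

/-! ### Periodic functions -/

lemma sum_shift {q : ℕ} {F : ℕ → ℂ} (hF : ∀ t, F (t + q) = F t) (t₀ : ℕ) :
    ∑ t ∈ range q, F (t₀ + t) = ∑ t ∈ range q, F t := by
  induction t₀ with
  | zero => simp
  | succ t₀ ih =>
    rw [← ih]
    have h1 := Finset.sum_range_succ (fun t => F (t₀ + t)) q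
    have h2 := Finset.sum_range_succ' (fun t => F (t₀ + t)) q
    rw [h1] at h2
    simp only [add_zero] at h2
    rw [hF] at h2
    have e : ∀ t, F (t₀ + 1 + t) = F (t₀ + (t + 1)) := fun t => by congr 1; ring
    rw [Finset.sum_congr rfl fun t _ => e t]
    exact (add_right_cancel h2).symm

lemma sum_long {q : ℕ} {F : ℕ → ℂ} (hF : ∀ t, F (t + q) = F t) (t₀ v : ℕ) : ∀ u : ℕ,
    ∑ s ∈ range (q * u + v), F (t₀ + s) = u * ∑ t ∈ range q, F t + ∑ s ∈ range v, F (t₀ + s) := by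
  intro u
  induction u with
  | zero => simp
  | succ u ih =>
    have e : q * (u + 1) + v = q + (q * u + v) := by ring
    rw [e, Finset.sum_range_add, sum_shift hF]
    have e2 : ∀ s, F (t₀ + (q + s)) = F (t₀ + s) := fun s => by
      rw [show t₀ + (q + s) = t₀ + s + q by ring, hF]
    rw [Finset.sum_congr rfl fun s _ => e2 s, ih]
    push_cast
    ring

lemma norm_mean {q : ℕ} (hq : 1 ≤ q) {F : ℕ → ℂ} (h1 : ∀ t, ‖F t‖ ≤ 1) :
    ‖(∑ t ∈ range q, F t) / q‖ ≤ 1 := by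
  have hq' : (0 : ℝ) < q := by exact_mod_cast hq
  rw [norm_div, Complex.norm_natCast, div_le_one hq']
  refine (norm_sum_le _ _).trans ((Finset.sum_le_sum fun t _ => h1 t).trans ?_)
  simp

lemma per_bound {q : ℕ} (hq : 1 ≤ q) {F : ℕ → ℂ} (hF : ∀ t, F (t + q) = F t)
    (h1 : ∀ t, ‖F t‖ ≤ 1) (t₀ M : ℕ) :
    ‖∑ s ∈ range M, F (t₀ + s) - (M : ℂ) * ((∑ t ∈ range q, F t) / q)‖ ≤ 2 * q := by
  have hq0 : (q : ℂ) ≠ 0 := by
    have : q ≠ 0 := by omega
    exact_mod_cast this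
  have hv : M % q < q := Nat.mod_lt _ hq
  have e := Nat.div_add_mod M q
  have e1 : ∑ s ∈ range M, F (t₀ + s) = (M / q : ℕ) * ∑ t ∈ range q, F t +
      ∑ s ∈ range (M % q), F (t₀ + s) := by
    conv_lhs => rw [← e]
    exact sum_long hF t₀ _ _
  have e2 : (M : ℂ) = q * (M / q : ℕ) + (M % q : ℕ) := by
    conv_lhs => rw [← e]
    push_cast
    rfl
  have e3 : ∑ s ∈ range M, F (t₀ + s) - (M : ℂ) * ((∑ t ∈ range q, F t) / q) =
      ∑ s ∈ range (M % q), F (t₀ + s) - ((M % q : ℕ) : ℂ) * ((∑ t ∈ range q, F t) / q) := by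
    rw [e1, e2]
    field_simp
    ring
  rw [e3]
  have h2 : ‖∑ s ∈ range (M % q), F (t₀ + s)‖ ≤ (M % q : ℕ) := by
    refine (norm_sum_le _ _).trans ((Finset.sum_le_sum fun t _ => h1 _).trans ?_)
    simp
  have h3 : ‖((M % q : ℕ) : ℂ) * ((∑ t ∈ range q, F t) / q)‖ ≤ (M % q : ℕ) := by
    rw [norm_mul, Complex.norm_natCast]
    calc ((M % q : ℕ) : ℝ) * ‖(∑ t ∈ range q, F t) / q‖ ≤ ((M % q : ℕ) : ℝ) * 1 :=
          mul_le_mul_of_nonneg_left (norm_mean hq h1) (Nat.cast_nonneg _)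
      _ = _ := mul_one _
  have h4 : ((M % q : ℕ) : ℝ) ≤ q := by exact_mod_cast hv.le
  calc _ ≤ ‖∑ s ∈ range (M % q), F (t₀ + s)‖ + ‖((M % q : ℕ) : ℂ) * ((∑ t ∈ range q, F t) / q)‖ :=
        norm_sub_le _ _
    _ ≤ 2 * q := by linarith

/-! ### A block -/

/-- the phases of the major arc -/
noncomputable def FF (p : ℤ) (q t : ℕ) : ℂ := ee ((p : ℝ) / q * (2 * t + 1) ^ 2)

lemma FF_per {q : ℕ} (hq : 1 ≤ q) (p : ℤ) (t : ℕ) : FF p q (t + q) = FF p q t := by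
  have hq0 : (q : ℝ) ≠ 0 := by
    have : q ≠ 0 := by omega
    exact_mod_cast this
  unfold FF
  have e : (p : ℝ) / q * (2 * (t + q : ℕ) + 1) ^ 2 = (p : ℝ) / q * (2 * t + 1) ^ 2 +
      ((p * (4 * (2 * t + 1) + 4 * q) : ℤ) : ℝ) := by
    push_cast
    field_simp
    ring
  rw [e, ee_add, ee_int, mul_one]

lemma block {β c : ℝ} {q N M i : ℕ} {p : ℤ} (hq : 1 ≤ q) (hi : 2 * M * (i + 1) ≤ N)
    (hc : |β| * N ≤ c) : ‖bl (β + p / q) M i - (∑ t ∈ range q, FF p q t) / q * bl β M i‖ ≤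
      2 * q + 16 * Real.pi * M ^ 2 * c := by
  set γ := (∑ t ∈ range q, FF p q t) / (q : ℂ) with hγ
  have hFn : ∀ t, ‖FF p q t‖ ≤ 1 := fun t => (norm_ee _).le
  set z : ℂ := ee (β * ((2 * M * i + 1 : ℕ) : ℝ) ^ 2) with hz
  have hc0 : 0 ≤ c := le_trans (by positivity) hc
  have hzs : ∀ s ∈ range M, ‖ee (β * ((2 * M * i + 2 * s + 1 : ℕ) : ℝ) ^ 2) - z‖ ≤
      8 * Real.pi * M * c := by
    intro s hs
    rw [mem_range] at hs
    have e : ee (β * ((2 * M * i + 2 * s + 1 : ℕ) : ℝ) ^ 2) =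
        z * ee (β * (4 * s * (2 * M * i + s + 1 : ℕ))) := by
      rw [hz, ← ee_add]
      congr 1
      push_cast
      ring
    have e2 : z * ee (β * (4 * s * (2 * M * i + s + 1 : ℕ))) - z =
        z * (ee (β * (4 * s * (2 * M * i + s + 1 : ℕ))) - 1) := by ring
    rw [e, e2, norm_mul, hz, norm_ee, one_mul]
    refine (norm_ee_sub_one _).trans ?_
    have h1 : 2 * M * i + s + 1 ≤ N := by nlinarith
    have h2 : ((2 * M * i + s + 1 : ℕ) : ℝ) ≤ N := by exact_mod_cast h1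
    have h3 : (s : ℝ) ≤ M := by exact_mod_cast hs.le
    rw [abs_mul, abs_of_nonneg (a := 4 * (s : ℝ) * ((2 * M * i + s + 1 : ℕ) : ℝ)) (by positivity)]
    have hpi := Real.pi_pos
    have hb := abs_nonneg β
    calc 2 * Real.pi * (|β| * (4 * s * ((2 * M * i + s + 1 : ℕ) : ℝ)))
        ≤ 2 * Real.pi * (|β| * (4 * M * N)) := by gcongr
      _ = 8 * Real.pi * M * (|β| * N) := by ring
      _ ≤ 8 * Real.pi * M * c := by gcongr
  have e1 : bl (β + p / q) M i = ∑ s ∈ range M,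
      ee (β * ((2 * M * i + 2 * s + 1 : ℕ) : ℝ) ^ 2) * FF p q (M * i + s) := by
    unfold bl FF
    refine Finset.sum_congr rfl fun s _ => ?_
    rw [← ee_add]
    congr 1
    push_cast
    ring
  have e2 : bl (β + p / q) M i - γ * bl β M i =
      ∑ s ∈ range M, (ee (β * ((2 * M * i + 2 * s + 1 : ℕ) : ℝ) ^ 2) - z) * FF p q (M * i + s) +
      z * (∑ s ∈ range M, FF p q (M * i + s) - M * γ) -
      γ * ∑ s ∈ range M, (ee (β * ((2 * M * i + 2 * s + 1 : ℕ) : ℝ) ^ 2) - z) := by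
    rw [e1]
    unfold bl
    rw [Finset.sum_sub_distrib, Finset.sum_const, card_range, nsmul_eq_mul]
    simp only [sub_mul]
    rw [Finset.sum_sub_distrib, ← Finset.mul_sum]
    ring
  have b1 : ‖∑ s ∈ range M, (ee (β * ((2 * M * i + 2 * s + 1 : ℕ) : ℝ) ^ 2) - z) *
      FF p q (M * i + s)‖ ≤ M * (8 * Real.pi * M * c) := by
    refine (norm_sum_le _ _).trans ?_
    refine (Finset.sum_le_sum (g := fun _ => 8 * Real.pi * M * c) fun s hs => ?_).trans ?_
    · rw [norm_mul]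
      calc _ ≤ 8 * Real.pi * M * c * 1 := by
            apply mul_le_mul (hzs s hs) (hFn _) (norm_nonneg _)
            have := Real.pi_pos
            positivity
        _ = _ := mul_one _
    · rw [Finset.sum_const, card_range, nsmul_eq_mul]
  have b2 : ‖z * (∑ s ∈ range M, FF p q (M * i + s) - M * γ)‖ ≤ 2 * q := by
    rw [norm_mul, hz, norm_ee, one_mul]
    exact per_bound hq (FF_per hq p) hFn _ _
  have b3 : ‖γ * ∑ s ∈ range M, (ee (β * ((2 * M * i + 2 * s + 1 : ℕ) : ℝ) ^ 2) - z)‖ ≤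
      M * (8 * Real.pi * M * c) := by
    rw [norm_mul]
    have hγ1 : ‖γ‖ ≤ 1 := norm_mean hq hFn
    have h4 : ‖∑ s ∈ range M, (ee (β * ((2 * M * i + 2 * s + 1 : ℕ) : ℝ) ^ 2) - z)‖ ≤
        M * (8 * Real.pi * M * c) := by
      refine (norm_sum_le _ _).trans ?_
      refine (Finset.sum_le_sum hzs).trans ?_
      rw [Finset.sum_const, card_range, nsmul_eq_mul]
    calc _ ≤ 1 * (M * (8 * Real.pi * M * c)) :=
          mul_le_mul hγ1 h4 (norm_nonneg _) zero_le_one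
      _ = _ := one_mul _
  rw [e2]
  calc _ ≤ ‖∑ s ∈ range M, (ee (β * ((2 * M * i + 2 * s + 1 : ℕ) : ℝ) ^ 2) - z) *
        FF p q (M * i + s)‖ + ‖z * (∑ s ∈ range M, FF p q (M * i + s) - M * γ)‖ +
        ‖γ * ∑ s ∈ range M, (ee (β * ((2 * M * i + 2 * s + 1 : ℕ) : ℝ) ^ 2) - z)‖ :=
        (norm_sub_le _ _).trans (add_le_add (norm_add_le _ _) le_rfl)
    _ ≤ M * (8 * Real.pi * M * c) + 2 * q + M * (8 * Real.pi * M * c) :=
        add_le_add (add_le_add b1 b2) b3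
    _ = _ := by ring

theorem t_MAJ : S_MAJ := by
  intro hBLK q₀ f C hC hI Q ε hε
  have hpi := Real.pi_pos
  have hC0 : 0 ≤ C := (abs_nonneg _).trans (hC 0)
  set D := C + 1 with hD
  have hD0 : 0 < D := by linarith
  have hfD : ∀ n, |f n| ≤ D := fun n => (hC n).trans (by linarith)
  obtain ⟨a, ha⟩ := pow_unbounded_of_one_lt (8 * D * Q / ε) (one_lt_two (α := ℝ))
  set M : ℕ := 2 ^ a with hM
  have hM0 : (0 : ℝ) < M := by
    rw [hM]
    positivity
  have hMc : 8 * D * Q / ε < M := by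
    rw [hM]
    push_cast
    exact ha
  set c := ε / (64 * Real.pi * M * D) with hc
  have hc0 : 0 < c := by positivity
  obtain ⟨N₀, hN₀⟩ := hBLK q₀ f C hC hI a 0 (dvd_zero _) M (Or.inl rfl) (ε / 4) (by linarith)
  refine ⟨c, hc0, N₀, fun N hN α q p hq hqQ hα => ?_⟩
  set β := α - p / q with hβ
  have hαβ : α = β + p / q := by rw [hβ]; ring
  set γ := (∑ t ∈ range q, FF p q t) / (q : ℂ) with hγ
  have hγ1 : ‖γ‖ ≤ 1 := norm_mean hq fun t => (norm_ee _).le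
  set I := N / (2 * M) with hIdef
  have hbl : ∀ δ : ℝ, ‖S2 f N δ - ∑ i ∈ range I, (f (2 * 2 ^ a * i + 1) : ℂ) * bl δ M i‖ ≤
      ε / 4 * N := fun δ => hN₀ N hN (fun n => ee (δ * (n : ℝ) ^ 2)) fun n => (norm_ee _).le
  have hIN : 2 * (M : ℝ) * I ≤ N := by
    have h1 : 2 * M * I ≤ N := Nat.mul_div_le N (2 * M)
    exact_mod_cast h1
  -- the comparison of the main terms
  have hcmp : ‖∑ i ∈ range I, (f (2 * 2 ^ a * i + 1) : ℂ) * bl α M i -
      γ * ∑ i ∈ range I, (f (2 * 2 ^ a * i + 1) : ℂ) * bl β M i‖ ≤ ε / 4 * N := by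
    rw [Finset.mul_sum, ← Finset.sum_sub_distrib]
    have h1 : ∀ i ∈ range I, ‖(f (2 * 2 ^ a * i + 1) : ℂ) * bl α M i -
        γ * ((f (2 * 2 ^ a * i + 1) : ℂ) * bl β M i)‖ ≤
        D * (2 * Q + 16 * Real.pi * M ^ 2 * c) := by
      intro i hi
      rw [mem_range] at hi
      have e : (f (2 * 2 ^ a * i + 1) : ℂ) * bl α M i -
          γ * ((f (2 * 2 ^ a * i + 1) : ℂ) * bl β M i) =
          (f (2 * 2 ^ a * i + 1) : ℂ) * (bl α M i - γ * bl β M i) := by ring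
      rw [e, norm_mul, Complex.norm_real, Real.norm_eq_abs]
      have hi' : 2 * M * (i + 1) ≤ N :=
        (Nat.mul_le_mul_left _ hi).trans (Nat.mul_div_le N (2 * M))
      have h2 : ‖bl α M i - γ * bl β M i‖ ≤ 2 * q + 16 * Real.pi * M ^ 2 * c := by
        rw [hαβ]
        exact block hq hi' hα
      have hqQ' : (q : ℝ) ≤ Q := by exact_mod_cast hqQ
      calc _ ≤ D * (2 * q + 16 * Real.pi * M ^ 2 * c) :=
            mul_le_mul (hfD _) h2 (norm_nonneg _) hD0.le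
        _ ≤ _ := by gcongr
    refine (norm_sum_le _ _).trans ((Finset.sum_le_sum h1).trans ?_)
    rw [Finset.sum_const, card_range, nsmul_eq_mul]
    have h3 : D * (2 * Q) ≤ ε / 4 * M := by
      rw [div_lt_iff₀ hε] at hMc
      linarith
    have h4 : D * (16 * Real.pi * M ^ 2 * c) = ε / 4 * M := by
      rw [hc]
      field_simp
      ring
    calc (I : ℝ) * (D * (2 * Q + 16 * Real.pi * M ^ 2 * c))
        = I * (D * (2 * Q) + D * (16 * Real.pi * M ^ 2 * c)) := by ring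
      _ ≤ I * (ε / 4 * M + ε / 4 * M) := by
          rw [h4]
          gcongr
      _ = ε / 4 * (2 * M * I) := by ring
      _ ≤ ε / 4 * N := by gcongr
  have h5 := hbl α
  have h6 := hbl β
  set A := ∑ i ∈ range I, (f (2 * 2 ^ a * i + 1) : ℂ) * bl α M i with hA
  set B := ∑ i ∈ range I, (f (2 * 2 ^ a * i + 1) : ℂ) * bl β M i with hB
  have h7 : ‖γ * B‖ ≤ ‖B‖ := by
    rw [norm_mul]
    calc ‖γ‖ * ‖B‖ ≤ 1 * ‖B‖ := mul_le_mul_of_nonneg_right hγ1 (norm_nonneg _)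
      _ = _ := one_mul _
  have h8 : ‖S2 f N α‖ ≤ ‖S2 f N α - A‖ + ‖A‖ := by
    have := norm_add_le (S2 f N α - A) A
    rwa [sub_add_cancel] at this
  have h9 : ‖A‖ ≤ ‖A - γ * B‖ + ‖γ * B‖ := by
    have := norm_add_le (A - γ * B) (γ * B)
    rwa [sub_add_cancel] at this
  have h10 : ‖B‖ ≤ ‖S2 f N β - B‖ + ‖S2 f N β‖ := by
    have := norm_sub_le (S2 f N β) (S2 f N β - B)
    rw [sub_sub_cancel] at this
    linarith
  have hN0 : (0 : ℝ) ≤ N := Nat.cast_nonneg _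
  nlinarith

end Pool.Agent.L0h85.QE

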